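import Pool.Agent.Helper11.ZU.Base

/-! # Definitions: levels of isogenies between the coordinates of a translate -/

open Finset MvPolynomial

namespace Pool.Agent.Helper11.ZV
open Pool.Agent.Helper11.ZP Pool.Agent.Helper11.ZU

/-- general position at the cusps, with integral equations whose leading coefficients divide `M` -/
def IntGenPos {n : ℕ} (M d : ℕ) (Z : Set (Fin n → ℂ)) : Prop :=
  ∀ J : Finset (Fin n), J.card = d + 1 → ∃ f : MvPolynomial (Fin n) ℤ, f.vars ⊆ J ∧
    f.coeff (Finsupp.equivFunOnFinite.symm fun i => f.degreeOf i) ∣ (M : ℤ) ∧ ∀ z ∈ Z, aeval z f = 0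

/-- either every `d + 1` of the denominators of `a` have a common prime factor not dividing `M`, or the
greatest common divisor of all denominators does not divide `M` -/
def CommonFactor {n : ℕ} (M d : ℕ) (a : Fin n → ℚ) : Prop :=
  (∀ J : Finset (Fin n), J.card = d + 1 → ∃ p : ℕ, p.Prime ∧ ¬ p ∣ M ∧ ∀ i ∈ J, p ∣ (a i).den) ∨
    ¬ Finset.univ.gcd (fun i => (a i).den) ∣ M

/-- the modulus at which roots of unity are separated: `4` for `p = 2` and `p` otherwise -/
def modp (p : ℕ) : ℕ := if p = 2 then 4 else p

/-- the residue of a rational number modulo `q` -/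
def ratMod (q : ℕ) (ρ : ℚ) : ZMod q := (ρ.num : ZMod q) * (ρ.den : ZMod q)⁻¹

/-- the quotient of the powers of `α` and `β` with the same power of `p` in the denominator -/
def ratio (p : ℕ) (α β : ℚ) : ℚ :=
  α ^ (padicValNat p β.den / Nat.gcd (padicValNat p α.den) (padicValNat p β.den)) /
    β ^ (padicValNat p α.den / Nat.gcd (padicValNat p α.den) (padicValNat p β.den))

/-- the order of this quotient modulo `p`, for `p = 2` modulo `4` -/
noncomputable def order (p : ℕ) (α β : ℚ) : ℕ := orderOf (ratMod (modp p) (ratio p α β))

/-- the level at the prime `p` -/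
noncomputable def level (p : ℕ) (α β : ℚ) : ℕ :=
  padicValNat p α.den * padicValNat p β.den * order p α β ^ 2 /
    Nat.gcd (padicValNat p α.den) (padicValNat p β.den) ^ 2

open Classical in
/-- the levels at the primes which divide both denominators more often than `M` -/
noncomputable def levels (M : ℕ) (α β : ℚ) : Finset ℕ :=
  ((α.den.primeFactors ∩ β.den.primeFactors).filter fun p =>
    padicValNat p M < min (padicValNat p α.den) (padicValNat p β.den) ∧
      ratMod (p ^ (min (padicValNat p α.den) (padicValNat p β.den) - padicValNat p M)) (ratio p α β) ^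
        order p α β = 1).image (level · α β)

/-- every subvariety of `X ∩ S`, `S` special, whose dimension is larger than `d + dim S - n`, lies in
one of the special hypersurfaces of the finite list -/
def UnlikelyInLevels {n : ℕ} (M d : ℕ) (a : Fin n → ℚ) (X : Set (Fin n → ℂ)) : Prop :=
  ∀ (S : SpecialData n) (A : Set (Fin n → ℂ)), IsSubvariety A → A ⊆ X ∩ S.carrier →
    d + dim S.carrier < dim A + n → ∃ i j : Fin n, i ≠ j ∧ ∃ N ∈ levels M (a i) (a j),
      ∀ x ∈ A, CyclicIsog N (x i) (x j)

end Pool.Agent.Helper11.ZV
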