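import Pool.Agent.Helper36.ZU.Transfer
import Pool.Agent.Helper11.ZU.Final
import Pool.Agent.Helper11.ZV.Defs

/-! # Places above every prime at which given numbers have bounded denominators -/

open Finset MvPolynomial Pool.Agent.Helper11.ZP Pool.Agent.Helper20.ZT Pool.Agent.Helper11.ZI
open Pool.Agent.Helper36.ZU Pool.Agent.Helper11.ZT

namespace Pool.Agent.Helper11.ZV

/-- an algebraic number has a denominator -/
lemma exists_denomM {z : ℂ} (hz : IsAlgebraic ℚ z) : ∃ m : ℕ, 0 < m ∧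
    ∀ O : ValuationSubring ℂ, (m : ℂ) * z ∈ O := by
  have h1 : IsAlgebraic ℤ z := (IsFractionRing.isAlgebraic_iff ℤ ℚ ℂ).2 hz
  obtain ⟨y, hy, hint⟩ := h1.exists_integral_multiple
  refine ⟨y.natAbs, Int.natAbs_pos.2 hy, fun O => ?_⟩
  have h4 := mem_of_isIntegral_int O hint
  rw [zsmul_eq_mul] at h4
  rcases Int.natAbs_eq y with h | h
  · rw [h] at h4
    simpa using h4
  · rw [h] at h4
    have h5 := O.neg_mem _ h4
    simpa using h5

/-- **valuation rings of `ℂ` with a given restriction to the algebraic numbers**, at which given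
numbers have bounded denominators -/
theorem exists_placeM (s : Finset ℂ) : ∃ M : ℕ, 0 < M ∧ ∀ p : ℕ, p.Prime →
    ∀ O : ValuationSubring ℂ, (p : ℂ) ∈ O.nonunits → ∃ O₀ : ValuationSubring ℂ,
      (∀ z, IsAlgebraic ℚ z → (z ∈ O₀ ↔ z ∈ O)) ∧ (p : ℂ) ∈ O₀.nonunits ∧ ∀ z ∈ s, (M : ℂ) * z ∈ O₀ := by
  classical
  obtain ⟨R, ψ, hs, halg, hψ⟩ := exists_special s
  choose d hd0 hd using fun r : R => exists_denomM (halg r)
  refine ⟨∏ z ∈ s.attach, d ⟨z.1, hs _ z.2⟩, prod_pos fun z _ => hd0 _, fun p hp O hpO => ?_⟩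
  obtain ⟨O₀, h1, h2, h3⟩ := place_of_hom hψ O
  refine ⟨O₀, h1, h2 _ (isAlgebraic_natCast p) hpO, fun z hz => ?_⟩
  have h4 : ((d ⟨z, hs z hz⟩ : ℕ) : ℂ) * z ∈ O₀ := by
    have h5 := h3 ((d ⟨z, hs z hz⟩ : R) * ⟨z, hs z hz⟩) (by
      rw [map_mul, map_natCast]
      exact hd _ O)
    simpa using h5
  obtain ⟨c, hc⟩ : d ⟨z, hs z hz⟩ ∣ ∏ z ∈ s.attach, d ⟨z.1, hs _ z.2⟩ :=
    Finset.dvd_prod_of_mem (fun z : {x // x ∈ s} => d ⟨z.1, hs _ z.2⟩) (mem_attach _ (⟨z, hz⟩ : {x // x ∈ s}))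
  rw [hc]
  push_cast
  rw [mul_right_comm]
  exact O₀.mul_mem _ _ h4 (natCast_mem O₀ c)

/-- a place at which the points of `Z` have at most `d` coordinates with large denominators: the
equations are normalized and have bounded denominators -/
def PlaceM {n : ℕ} (M d : ℕ) (Z : Set (Fin n → ℂ)) (p : ℕ) : Prop :=
  ∃ O : ValuationSubring ℂ, (p : ℂ) ∈ O.nonunits ∧ ∀ J : Finset (Fin n), J.card = d + 1 →
    ∃ f : MvPolynomial (Fin n) ℂ, f.vars ⊆ J ∧ (∀ m, (M : ℂ) * f.coeff m ∈ O) ∧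
      f.coeff (Finsupp.equivFunOnFinite.symm fun i => f.degreeOf i) = 1 ∧ ∀ z ∈ Z, eval z f = 0

/-- scaling a polynomial -/
lemma degreeOf_C_mul' {n : ℕ} {c : ℂ} (hc : c ≠ 0) (f : MvPolynomial (Fin n) ℂ) (i : Fin n) :
    (C c * f).degreeOf i = f.degreeOf i := by
  apply le_antisymm (degreeOf_C_mul_le f i c)
  have h := degreeOf_C_mul_le (C c * f) i c⁻¹
  rwa [← mul_assoc, ← C_mul, inv_mul_cancel₀ hc, C_1, one_mul] at h

lemma vars_C_mul_subset {n : ℕ} (c : ℂ) (f : MvPolynomial (Fin n) ℂ) : (C c * f).vars ⊆ f.vars := by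
  classical
  refine (vars_mul (C c) f).trans ?_
  rw [vars_C, Finset.empty_union]

theorem IntGenPos.placeM {n M d : ℕ} (hM : 0 < M) {Z : Set (Fin n → ℂ)} (hZ : IntGenPos M d Z) {p : ℕ}
    (hp : p.Prime) : PlaceM M d Z p := by
  classical
  obtain ⟨O, hpO⟩ := exists_place_above hp
  refine ⟨O, hpO, fun J hJ => ?_⟩
  obtain ⟨f, hf1, ⟨c, hc⟩, hf3⟩ := hZ J hJ
  set t := f.coeff (Finsupp.equivFunOnFinite.symm fun i => f.degreeOf i) with ht
  have ht0 : (t : ℂ) ≠ 0 := by
    intro h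
    have h1 : t = 0 := by exact_mod_cast h
    rw [h1, zero_mul] at hc
    have : M = 0 := by exact_mod_cast hc
    omega
  set F : MvPolynomial (Fin n) ℂ := map (Int.castRingHom ℂ) f with hF
  have hinj : Function.Injective (Int.castRingHom ℂ) := Int.cast_injective
  have hdeg : ∀ i, F.degreeOf i = f.degreeOf i := fun i => by
    rw [degreeOf_eq_sup, degreeOf_eq_sup, hF, support_map_of_injective f hinj]
  refine ⟨C (t : ℂ)⁻¹ * F, (vars_C_mul_subset _ _).trans ((vars_map _ _).trans hf1), fun m => ?_, ?_,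
    fun z hz => ?_⟩
  · rw [coeff_C_mul, hF, coeff_map]
    have h1 : (M : ℂ) * ((t : ℂ)⁻¹ * (Int.castRingHom ℂ) (coeff m f)) = ((c * coeff m f : ℤ) : ℂ) := by
      have h2 : (M : ℂ) = t * c := by
        have := congrArg (Int.cast : ℤ → ℂ) hc
        push_cast at this
        exact this
      rw [h2]
      push_cast
      rw [eq_intCast]
      field_simp
    rw [h1]
    exact intCast_mem O _
  · have h1 : (Finsupp.equivFunOnFinite.symm fun i => (C (t : ℂ)⁻¹ * F).degreeOf i) =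
        (Finsupp.equivFunOnFinite.symm fun i => f.degreeOf i : Fin n →₀ ℕ) := by
      congr 1
      funext i
      rw [degreeOf_C_mul' (inv_ne_zero ht0), hdeg]
    rw [h1, coeff_C_mul, hF, coeff_map, ← ht, eq_intCast, inv_mul_cancel₀ ht0]
  · rw [map_mul, hF, eval_map]
    have h1 := hf3 z hz
    rw [aeval_def] at h1
    have h2 : eval₂ (Int.castRingHom ℂ) z f = 0 := h1
    rw [h2, mul_zero]

theorem exists_placeM_of_genPos {n d : ℕ} {Z : Set (Fin n → ℂ)} (hZ : GenPos d Z) :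
    ∃ M : ℕ, 0 < M ∧ ∀ p : ℕ, p.Prime → PlaceM M d Z p := by
  classical
  choose f0 hf0 using hZ
  set f : Finset (Fin n) → MvPolynomial (Fin n) ℂ := fun J => if h : J.card = d + 1 then
    C ((f0 J h).coeff (Finsupp.equivFunOnFinite.symm fun i => (f0 J h).degreeOf i))⁻¹ * f0 J h else 0
    with hfdef
  set s : Finset ℂ := univ.biUnion fun J : Finset (Fin n) => (f J).support.image (f J).coeff with hs
  obtain ⟨M, hM, h⟩ := exists_placeM s
  refine ⟨M, hM, fun p hp => ?_⟩
  obtain ⟨O₁, hpO₁⟩ := exists_place_above hp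
  obtain ⟨O, -, hpO, hO⟩ := h p hp O₁ hpO₁
  refine ⟨O, hpO, fun J hJ => ⟨f J, ?_, fun m => ?_, ?_, fun z hz => ?_⟩⟩
  · simp only [hfdef, dif_pos hJ]
    exact (vars_C_mul_subset _ _).trans (hf0 J hJ).1.vars
  · by_cases hm : m ∈ (f J).support
    · refine hO _ ?_
      simp only [hs, mem_biUnion, mem_image, mem_univ, true_and]
      exact ⟨J, m, hm, rfl⟩
    · rw [notMem_support_iff.1 hm, mul_zero]; exact zero_mem _
  · have ht0 := (hf0 J hJ).1.top
    simp only [hfdef, dif_pos hJ]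
    have h1 : (Finsupp.equivFunOnFinite.symm fun i => (C ((f0 J hJ).coeff
        (Finsupp.equivFunOnFinite.symm fun i => (f0 J hJ).degreeOf i))⁻¹ * f0 J hJ).degreeOf i) =
        (Finsupp.equivFunOnFinite.symm fun i => (f0 J hJ).degreeOf i : Fin n →₀ ℕ) := by
      congr 1
      funext i
      rw [degreeOf_C_mul' (inv_ne_zero ht0)]
    rw [h1, coeff_C_mul, inv_mul_cancel₀ ht0]
  · simp only [hfdef, dif_pos hJ]
    rw [map_mul, (hf0 J hJ).2 z hz, mul_zero]

section
variable {n : ℕ} {K : Type*} [Field K] [Algebra ℂ K]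

/-- **domination**: at a zero of a normalized polynomial with bounded denominators some coordinate has
a bounded denominator -/
theorem dominM (O : ValuationSubring K) {M : ℕ} (hM : (M : K) ≠ 0) {J : Finset (Fin n)}
    {f : MvPolynomial (Fin n) ℂ} (hf1 : f.vars ⊆ J) (hf2 : ∀ m, algebraMap ℂ K ((M : ℂ) * f.coeff m) ∈ O)
    (hf3 : f.coeff (Finsupp.equivFunOnFinite.symm fun i => f.degreeOf i) = 1) {x : Fin n → K}
    (hx : aeval x f = 0) : ∃ i ∈ J, (M : K) * x i ∈ O := by
  classical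
  by_contra hcon
  push Not at hcon
  set t : Fin n →₀ ℕ := Finsupp.equivFunOnFinite.symm fun i => f.degreeOf i with ht
  have hMO : (M : K) ∈ O := natCast_mem O M
  have vM : O.valuation (M : K) ≤ 1 := (val_mem O).1 hMO
  have vM0 : 0 < O.valuation (M : K) := zero_lt_iff.2 ((Valuation.ne_zero_iff _).2 hM)
  have hvx : ∀ i ∈ J, 1 < O.valuation (M : K) * O.valuation (x i) := by
    intro i hi
    have h1 := hcon i hi
    rw [val_mem, map_mul] at h1
    exact not_le.1 h1
  have hvx1 : ∀ i ∈ J, 1 < O.valuation (x i) := fun i hi =>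
    (hvx i hi).trans_le (mul_le_of_le_one_left zero_le vM)
  -- the monomials
  have hmon : ∀ m ∈ f.support, m ≠ t →
      O.valuation (algebraMap ℂ K (f.coeff m) * ∏ i, x i ^ m i) < O.valuation (∏ i, x i ^ t i) := by
    intro m hm hmt
    have hle : ∀ i, m i ≤ t i := fun i => by
      rw [ht]
      exact monomial_le_degreeOf i hm
    have hsupp : ∀ (m' : Fin n →₀ ℕ), (∀ i, m' i ≤ t i) → ∀ i, i ∉ J → m' i = 0 := by
      intro m' hm' i hi
      have h1 : f.degreeOf i = 0 := by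
        by_contra hcon2
        exact hi (hf1 (mem_vars_iff_degreeOf_ne_zero.2 hcon2))
      have h2 := hm' i
      rw [ht] at h2
      change m' i ≤ f.degreeOf i at h2
      omega
    have hprod : ∀ (m' : Fin n →₀ ℕ), (∀ i, m' i ≤ t i) → ∏ i, x i ^ m' i = ∏ i ∈ J, x i ^ m' i := by
      intro m' hm'
      symm
      apply Finset.prod_subset (subset_univ J)
      intro i _ hi
      rw [hsupp m' hm' i hi, pow_zero]
    rw [hprod m hle, hprod t fun i => le_rfl]
    obtain ⟨i₀, hi₀⟩ : ∃ i, m i < t i := by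
      by_contra hcon2
      push Not at hcon2
      exact hmt (Finsupp.ext fun i => le_antisymm (hle i) (hcon2 i))
    have hi₀J : i₀ ∈ J := by
      by_contra hcon2
      have := hsupp t (fun i => le_rfl) i₀ hcon2
      omega
    have vc : O.valuation (M : K) * O.valuation (algebraMap ℂ K (f.coeff m)) ≤ 1 := by
      have h1 := (val_mem O).1 (hf2 m)
      rwa [map_mul, map_natCast, map_mul] at h1
    rw [map_mul, map_prod, map_prod]
    simp only [map_pow]
    have e1 : ∀ g : Fin n → O.ValueGroup, ∏ i ∈ J, g i = g i₀ * ∏ i ∈ J.erase i₀, g i := fun g =>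
      (Finset.mul_prod_erase J g hi₀J).symm
    rw [e1, e1 fun i => O.valuation (x i) ^ t i]
    have h2 : ∏ i ∈ J.erase i₀, O.valuation (x i) ^ m i ≤ ∏ i ∈ J.erase i₀, O.valuation (x i) ^ t i :=
      Finset.prod_le_prod' fun i hi => pow_le_pow_right₀ (hvx1 i (mem_of_mem_erase hi)).le (hle i)
    have h3 : O.valuation (algebraMap ℂ K (f.coeff m)) * O.valuation (x i₀) ^ m i₀ <
        O.valuation (x i₀) ^ t i₀ := by
      have h4 : O.valuation (x i₀) ^ (m i₀ + 1) ≤ O.valuation (x i₀) ^ t i₀ :=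
        pow_le_pow_right₀ (hvx1 i₀ hi₀J).le hi₀
      refine lt_of_lt_of_le ?_ h4
      rw [pow_succ, mul_comm]
      have h5 : O.valuation (algebraMap ℂ K (f.coeff m)) < O.valuation (x i₀) := by
        have h6 : O.valuation (M : K) * O.valuation (algebraMap ℂ K (f.coeff m)) <
          O.valuation (M : K) * O.valuation (x i₀) := vc.trans_lt (hvx i₀ hi₀J)
        exact (mul_lt_mul_iff_right₀ vM0).1 h6
      exact mul_lt_mul_of_pos_left h5 (pow_pos (zero_lt_one.trans (hvx1 i₀ hi₀J)) _)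
    have h7 : 0 < ∏ i ∈ J.erase i₀, O.valuation (x i) ^ t i :=
      Finset.prod_pos fun i hi => pow_pos (zero_lt_one.trans (hvx1 i (mem_of_mem_erase hi))) _
    calc O.valuation (algebraMap ℂ K (f.coeff m)) * (O.valuation (x i₀) ^ m i₀ *
          ∏ i ∈ J.erase i₀, O.valuation (x i) ^ m i)
        = (O.valuation (algebraMap ℂ K (f.coeff m)) * O.valuation (x i₀) ^ m i₀) *
          ∏ i ∈ J.erase i₀, O.valuation (x i) ^ m i := by rw [mul_assoc]
      _ ≤ (O.valuation (algebraMap ℂ K (f.coeff m)) * O.valuation (x i₀) ^ m i₀) *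
          ∏ i ∈ J.erase i₀, O.valuation (x i) ^ t i := mul_le_mul_right h2 _
      _ < O.valuation (x i₀) ^ t i₀ * ∏ i ∈ J.erase i₀, O.valuation (x i) ^ t i :=
          mul_lt_mul_of_pos_right h3 h7
  have htop : f.coeff t = 1 := hf3
  have htm : t ∈ f.support := by rw [mem_support_iff, htop]; exact one_ne_zero
  have hsum : aeval x f = ∑ m ∈ f.support, algebraMap ℂ K (f.coeff m) * ∏ i, x i ^ m i := by
    rw [aeval_def, eval₂_eq']
  rw [hsum, ← Finset.add_sum_erase _ _ htm, htop, map_one, one_mul] at hx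
  have hlt : O.valuation (∑ m ∈ f.support.erase t, algebraMap ℂ K (f.coeff m) * ∏ i, x i ^ m i) <
      O.valuation (∏ i, x i ^ t i) := by
    have ht0 : O.valuation (∏ i, x i ^ t i) ≠ 0 := by
      rw [map_prod, Finset.prod_ne_zero_iff]
      intro i _
      rw [map_pow]
      by_cases hi : i ∈ J
      · exact pow_ne_zero _ (ne_of_gt (zero_lt_one.trans (hvx1 i hi)))
      · have h1 : f.degreeOf i = 0 := by
          by_contra hcon2
          exact hi (hf1 (mem_vars_iff_degreeOf_ne_zero.2 hcon2))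
        have h2 : t i = 0 := by rw [ht]; exact h1
        rw [h2, pow_zero]
        exact one_ne_zero
    exact Valuation.map_sum_lt _ ht0 fun m hm => hmon m (mem_of_mem_erase hm) (ne_of_mem_erase hm)
  have h1 : ∏ i, x i ^ t i = -∑ m ∈ f.support.erase t, algebraMap ℂ K (f.coeff m) * ∏ i, x i ^ m i :=
    eq_neg_of_add_eq_zero_left hx
  rw [h1, Valuation.map_neg] at hlt
  exact lt_irrefl _ hlt

end

end Pool.Agent.Helper11.ZV
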