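import Pool.Agent.Helper11.ZV.Levels

/-! # Atypical subvarieties of translates lie in finitely many special hypersurfaces, modulus form -/

open UpperHalfPlane Finset MvPolynomial

namespace Pool.Agent.Helper11.ZV
open Pool.Agent.Helper11.ZP Pool.Agent.Helper11.ZU Pool.Agent.Helper20.ZT Pool.Agent.Helper20.ZT.Prim
  Pool.Agent.Helper11.ZI

/-- the form of the condition on the denominators used in the proof -/
def CommonFactor' {n : ℕ} (M d : ℕ) (a : Fin n → ℚ) : Prop :=
  ∀ J : Finset (Fin n), J.card = d + 1 → ∃ p : ℕ, p.Prime ∧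
    (∀ i ∈ J, padicValNat p M < padicValNat p (a i).den) ∧
      (p ∣ M → ∀ i, padicValNat p M < padicValNat p (a i).den)

lemma CommonFactor.strong {n M d : ℕ} (hM : 0 < M) {a : Fin n → ℚ} (h : CommonFactor M d a) :
    CommonFactor' M d a := by
  rcases h with h | h
  · intro J hJ
    obtain ⟨p, hp, hpM, hpa⟩ := h J hJ
    have := Fact.mk hp
    refine ⟨p, hp, fun i hi => ?_, fun hcon => absurd hcon hpM⟩
    rw [padicValNat.eq_zero_of_not_dvd hpM]
    exact one_le_padicValNat_of_dvd (a i).den_nz (hpa i hi)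
  · intro J hJ
    set G := Finset.univ.gcd (fun i => (a i).den) with hG
    have hJne : J.Nonempty := by
      rw [← card_pos, hJ]; omega
    obtain ⟨i₀, -⟩ := hJne
    have hG0 : G ≠ 0 := by
      intro h0
      have h1 : G ∣ (a i₀).den := Finset.gcd_dvd (mem_univ i₀)
      rw [h0, zero_dvd_iff] at h1
      exact (a i₀).den_nz h1
    obtain ⟨p, hp, hlt⟩ : ∃ p : ℕ, p.Prime ∧ padicValNat p M < padicValNat p G := by
      by_contra hcon
      push Not at hcon
      apply h
      rw [← Nat.factorization_prime_le_iff_dvd hG0 hM.ne']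
      intro p hp
      rw [Nat.factorization_def _ hp, Nat.factorization_def _ hp]
      exact hcon p hp
    have := Fact.mk hp
    have hall : ∀ i, padicValNat p M < padicValNat p (a i).den := by
      intro i
      refine hlt.trans_le ?_
      exact (padicValNat_dvd_iff_le (a i).den_nz).1 ((pow_padicValNat_dvd).trans (Finset.gcd_dvd (mem_univ i)))
    exact ⟨p, hp, fun i _ => hall i, fun _ => hall⟩

section
variable {n : ℕ} {K : Type} [Field K] [IsAlgClosed K] [Algebra ℂ K]

/-- two isogenous coordinates of a field-valued point -/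
theorem exists_pairK {d M : ℕ} (hM : 0 < M) {Z : Set (Fin n → ℂ)}
    (hgp : ∀ p : ℕ, p.Prime → PlaceM M d Z p) {a : Fin n → ℚ} (ha : CommonFactor' (2 * M) d a)
    (S : SpecialData n) (x : Fin n → K)
    (hxZ : ∀ f : MvPolynomial (Fin n) ℂ, (∀ z ∈ Z, eval z f = 0) →
      aeval (fun i => x i - (a i : K)) f = 0)
    (relK : ∀ (i j : Fin n) (s : Fin S.r), S.cls i = some s → S.cls j = some s →
      ∃ P : Polynomial (Polynomial OO), P.Monic ∧
        P.eval₂ (Polynomial.eval₂RingHom ((algebraMap ℂ K).comp (algebraMap OO ℂ)) (x j)) (x i) = 0)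
    (constK : ∀ i : Fin n, S.cls i = none → x i = algebraMap ℂ K (S.c i))
    {t : Type} [Fintype t] (idx : t → Fin n)
    (hK : AlgebraicIndependent ℂ (fun y : t => x (idx y)))
    (hS : S.r + d + 1 ≤ n + Fintype.card t) :
    ∃ (p : ℕ) (O : ValuationSubring K) (i j : Fin n) (s : Fin S.r), p.Prime ∧
      (p : K) ∈ O.nonunits ∧ i ≠ j ∧ S.cls i = some s ∧ S.cls j = some s ∧
      padicValNat p (2 * M) < padicValNat p (a i).den ∧ padicValNat p (2 * M) < padicValNat p (a j).den ∧
      (M : K) * (x i - (a i : K)) ∈ O ∧ (M : K) * (x j - (a j : K)) ∈ O := by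
  classical
  have hchar : CharZero K := charZero_of_injective_algebraMap (algebraMap ℂ K).injective
  -- the classes of the transcendence basis
  have hne : ∀ y : t, ∃ s, S.cls (idx y) = some s := by
    intro y
    rcases h : S.cls (idx y) with _ | s
    · exfalso
      have h1 := hK.transcendental y
      rw [constK _ h] at h1
      exact h1 (isAlgebraic_algebraMap _)
    · exact ⟨s, rfl⟩
  choose e he using hne
  have einj : Function.Injective e := by
    intro y y' hyy
    by_contra hcon
    obtain ⟨P, hP, hP2⟩ := relK (idx y) (idx y') (e y) (he y) (by rw [hyy]; exact he y')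
    have h1 := hK.transcendental_adjoin (s := {y'}) (i := y) hcon
    apply h1
    set D := Algebra.adjoin ℂ ((fun y : t => x (idx y)) '' {y'}) with hD
    have hmemD : x (idx y') ∈ D := Algebra.subset_adjoin ⟨y', rfl, rfl⟩
    let ψ : Polynomial OO →+* D :=
      Polynomial.eval₂RingHom ((algebraMap ℂ D).comp (algebraMap OO ℂ)) ⟨x (idx y'), hmemD⟩
    refine IsIntegral.isAlgebraic ⟨P.map ψ, hP.map ψ, ?_⟩
    rw [Polynomial.eval₂_map]
    have h5 : (algebraMap D K).comp ψ =
        Polynomial.eval₂RingHom ((algebraMap ℂ K).comp (algebraMap OO ℂ)) (x (idx y')) := by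
      apply Polynomial.ringHom_ext
      · intro a
        simp only [ψ, RingHom.comp_apply, Polynomial.coe_eval₂RingHom, Polynomial.eval₂_C]
        rfl
      · simp only [ψ, RingHom.comp_apply, Polynomial.coe_eval₂RingHom, Polynomial.eval₂_X]
        rfl
    rw [h5]
    exact hP2
  set B : Finset (Fin S.r) := univ.image e with hB
  have hBcard : B.card = Fintype.card t := by
    rw [hB, card_image_of_injective _ einj, card_univ]
  obtain ⟨J, hJ, hJT⟩ := comb S.cls S.surj B (d := d) (by rw [hBcard]; exact hS)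
  obtain ⟨p, hp, hpa, hpM⟩ := ha J hJ
  obtain ⟨O₀, hpO₀, hO₀⟩ := hgp p hp
  obtain ⟨O, hO1, hO2, hxO⟩ := Helper11.ZT.exists_extension O₀ (fun y : t => x (idx y)) hK
  have hpO : (p : K) ∈ O.nonunits := by
    have := hO2 _ hpO₀
    rwa [map_natCast] at this
  have M2 : ∀ (i j : Fin n) (s : Fin S.r), S.cls i = some s → S.cls j = some s → x j ∈ O → x i ∈ O := by
    intro i j s hi hj hxj
    obtain ⟨P, hP, hP2⟩ := relK i j s hi hj
    exact mem_of_rel O hP hxj hP2
  have := Fact.mk hp
  have hMK : (M : K) ≠ 0 := by exact_mod_cast hM.ne'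
  have h2M : padicValNat p (2 * M) = padicValNat p 2 + padicValNat p M :=
    padicValNat.mul two_ne_zero hM.ne'
  have hMO : (M : K) ∈ O := natCast_mem O M
  -- coordinates with large denominators
  have hbig : ∀ i, padicValNat p (2 * M) < padicValNat p (a i).den → (M : K) * (x i - (a i : K)) ∈ O →
      x i ∉ O := by
    intro i hi hiO hcon
    have h1 : (M : K) * (a i : K) ∈ O := by
      have h2 := O.sub_mem (O.mul_mem _ _ hMO hcon) hiO
      have h3 : (M : K) * x i - (M : K) * (x i - (a i : K)) = (M : K) * (a i : K) := by ring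
      rwa [h3] at h2
    have h4 : ¬ p ∣ ((M : ℚ) * a i).den := by
      intro h5
      have h6 := val_rat_gt O hp hpO h5
      push_cast at h6
      exact absurd ((O.valuation_le_one_iff _).2 h1) (not_le.2 h6)
    apply h4
    have h5 : padicValRat p ((M : ℚ) * a i) < 0 := by
      have hai : a i ≠ 0 := by
        intro h0
        rw [h0] at hi
        simp at hi
      rw [padicValRat.mul (by exact_mod_cast hM.ne') hai, padicValRat.of_nat, padicValRat_def]
      have h6 : padicValInt p (a i).num = 0 := by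
        apply padicValInt.eq_zero_of_not_dvd
        intro h7
        have h8 : p ∣ (a i).num.natAbs := Int.natCast_dvd.1 h7
        have h9 : p ∣ (a i).den := dvd_of_one_le_padicValNat (by omega)
        exact hp.one_lt.ne' (Nat.Coprime.eq_one_of_dvd (Nat.Coprime.coprime_dvd_left h8 (a i).reduced) h9)
      rw [h6]
      omega
    rw [padicValRat_def] at h5
    apply dvd_of_one_le_padicValNat
    omega
  set T : Finset (Fin n) := univ.filter fun i => (M : K) * (x i - (a i : K)) ∉ O with hT
  have hTiff : ∀ i, i ∉ T ↔ (M : K) * (x i - (a i : K)) ∈ O := by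
    intro i
    rw [hT, mem_filter]
    simp
  have hTcard : T.card ≤ d := by
    by_contra hcon
    push Not at hcon
    obtain ⟨J', hJ'T, hJ'⟩ := exists_subset_card_eq (show d + 1 ≤ T.card from hcon)
    obtain ⟨f, hf1, hf2, hf3, hf4⟩ := hO₀ J' hJ'
    obtain ⟨i, hi, hiO⟩ := dominM O hMK hf1 (fun m => hO1 _ (hf2 m)) hf3 (hxZ f hf4)
    exact ((hTiff i).2 hiO) (hJ'T hi)
  obtain ⟨i, j, s, hiJ, hij, hiT, hjT, hi, hj⟩ := hJT T hTcard (by
    intro i hi hiT
    have hxi : x i ∉ O := hbig i (hpa i hi) ((hTiff i).1 hiT)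
    rcases h : S.cls i with _ | s
    · exfalso
      apply hxi
      rw [constK i h]
      exact mem_of_isIntegral_int O ((S.hc i h).isIntegral.map (algebraMap ℂ K).toIntAlgHom)
    · refine ⟨s, fun hs => hxi ?_, rfl⟩
      rw [hB, mem_image] at hs
      obtain ⟨y, -, rfl⟩ := hs
      exact M2 i (idx y) (e y) h (he y) (hxO y))
  have hxi : x i ∉ O := hbig i (hpa i hiJ) ((hTiff i).1 hiT)
  have hxj : x j ∉ O := fun h => hxi (M2 i j s hi hj h)
  refine ⟨p, O, i, j, s, hp, hpO, hij, hi, hj, hpa i hiJ, ?_, (hTiff i).1 hiT, (hTiff j).1 hjT⟩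
  by_cases hpM2 : p ∣ 2 * M
  · exact hpM hpM2 j
  · rw [padicValNat.eq_zero_of_not_dvd hpM2]
    have hpM3 : ¬ (p : ℤ) ∣ (M : ℤ) := fun h => hpM2 ((by exact_mod_cast h : p ∣ M).mul_left 2)
    have vM := int_unit O hp hpO hpM3
    have h1 : x j - (a j : K) ∈ O := by
      have h2 := (hTiff j).1 hjT
      rw [val_mem, map_mul] at h2
      rw [Int.cast_natCast] at vM
      rwa [vM, one_mul, ← val_mem] at h2
    by_contra hcon
    apply hxj
    have h3 : (a j : K) ∈ O := by
      rw [← O.valuation_le_one_iff]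
      apply val_rat_le O hp hpO
      intro h4
      exact hcon (one_le_padicValNat_of_dvd (a j).den_nz h4)
    have := O.add_mem _ _ h1 h3
    simpa using this

end

/-- **atypical intersections of translates**: a subvariety of `(Z + a) ∩ S` whose dimension exceeds
`d + dim S - n` has two coordinates related by a cyclic isogeny of bounded degree -/
theorem atypical_pair {n d M : ℕ} (hM : 0 < M) {Z : Set (Fin n → ℂ)}
    (hgp : ∀ p : ℕ, p.Prime → PlaceM M d Z p) {a : Fin n → ℚ} (ha : CommonFactor' (2 * M) d a)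
    (S : SpecialData n) {A : Set (Fin n → ℂ)} (hA : IsSubvariety A) (hAZ : A ⊆ translate Z a)
    (hAS : A ⊆ S.carrier) (hd : d + dim S.carrier < dim A + n) :
    ∃ (i j : Fin n) (N : ℕ), i ≠ j ∧ 0 < N ∧ N ∈ levels (2 * M) (a i) (a j) ∧
      ∀ x ∈ A, CyclicIsog N (x i) (x j) := by
  classical
  have hrS := S.le_dim
  obtain ⟨I, hI, rfl⟩ := hA
  have hvan : vanishingIdeal ℂ (zeroLocus ℂ I) = I := IsPrime.vanishingIdeal_zeroLocus I
  have hmem : ∀ f : MvPolynomial (Fin n) ℂ, (∀ y ∈ zeroLocus ℂ I, eval y f = 0) → f ∈ I := by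
    intro f hf
    rw [← hvan]
    exact fun y hy => by rw [MvPolynomial.aeval_eq_eval]; exact hf y hy
  -- function field
  let B := MvPolynomial (Fin n) ℂ ⧸ I
  let K := AlgebraicClosure (FractionRing B)
  have hcharK : CharZero K := charZero_of_injective_algebraMap (algebraMap ℂ K).injective
  let ξ : Fin n → B := fun i => Ideal.Quotient.mk I (X i)
  let x : Fin n → K := fun i => algebraMap B K (ξ i)
  have hinj : Function.Injective (algebraMap B K) := by
    rw [IsScalarTower.algebraMap_eq B (FractionRing B) K]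
    exact (algebraMap (FractionRing B) K).injective.comp (IsFractionRing.injective B _)
  have hadj : Algebra.adjoin ℂ (Set.range ξ) = ⊤ := by
    have h1 : (Ideal.Quotient.mkₐ ℂ I).range = ⊤ :=
      AlgHom.range_eq_top _ |>.2 (Ideal.Quotient.mkₐ_surjective ℂ I)
    rw [← h1, ← Algebra.map_top, ← MvPolynomial.adjoin_range_X, AlgHom.map_adjoin, ← Set.range_comp]
    rfl
  have halg : Algebra.IsAlgebraic (Algebra.adjoin ℂ (Set.range ξ)) B := by
    refine ⟨fun b => ?_⟩
    have hb : b ∈ Algebra.adjoin ℂ (Set.range ξ) := by rw [hadj]; trivial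
    exact isAlgebraic_algebraMap (⟨b, hb⟩ : Algebra.adjoin ℂ (Set.range ξ))
  obtain ⟨t, ht, hbas⟩ := exists_isTranscendenceBasis_subset (R := ℂ) (Set.range ξ)
  have hdim : dim (zeroLocus ℂ I) = Nat.card t := by
    rw [dim, hvan, ← hbas.cardinalMk_eq_trdeg]
    rfl
  have htfin : Finite t := ((Set.finite_range ξ).subset ht).to_subtype
  have hidx : ∀ y : t, ∃ i : Fin n, ξ i = y := fun y => ht y.2
  choose idx hidx using hidx
  have hK : AlgebraicIndependent ℂ (fun y : t => x (idx y)) := by
    have h1 := hbas.1.map' (f := IsScalarTower.toAlgHom ℂ B K) hinj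
    have h2 : (fun y : t => x (idx y)) = (IsScalarTower.toAlgHom ℂ B K) ∘ ((↑) : t → B) := by
      funext y
      simp only [x, hidx, Function.comp_apply, IsScalarTower.coe_toAlgHom']
    rw [h2]
    exact h1
  have hx : ∀ f : MvPolynomial (Fin n) ℂ, aeval x f = algebraMap B K (Ideal.Quotient.mk I f) := by
    intro f
    have h1 : (aeval x : MvPolynomial (Fin n) ℂ →ₐ[ℂ] K) =
        (IsScalarTower.toAlgHom ℂ B K).comp (Ideal.Quotient.mkₐ ℂ I) := by
      apply MvPolynomial.algHom_ext
      intro i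
      rw [aeval_X]
      rfl
    rw [h1]
    rfl
  have hx0 : ∀ f : MvPolynomial (Fin n) ℂ, f ∈ I → aeval x f = 0 := by
    intro f hf
    rw [hx, Ideal.Quotient.eq_zero_iff_mem.2 hf, map_zero]
  -- relations at the generic point
  have evalK : ∀ (P : Polynomial (Polynomial OO)) (i j : Fin n),
      (∀ y ∈ zeroLocus ℂ I, P.eval₂ (evO (y j)) (y i) = 0) →
        P.eval₂ (Polynomial.eval₂RingHom ((algebraMap ℂ K).comp (algebraMap OO ℂ)) (x j)) (x i) = 0 := by
    intro P i j hP2
    have h1 := hx0 (P.eval₂ (Polynomial.eval₂RingHom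
      ((C : ℂ →+* MvPolynomial (Fin n) ℂ).comp (algebraMap OO ℂ)) (X j)) (X i))
      (hmem _ fun y hy => by rw [eval_mv]; exact hP2 y hy)
    have h2 := Polynomial.hom_eval₂ P
      (Polynomial.eval₂RingHom ((C : ℂ →+* MvPolynomial (Fin n) ℂ).comp (algebraMap OO ℂ)) (X j))
      (aeval x : MvPolynomial (Fin n) ℂ →ₐ[ℂ] K).toRingHom (X i)
    have h3 : (aeval x : MvPolynomial (Fin n) ℂ →ₐ[ℂ] K).toRingHom.comp (Polynomial.eval₂RingHom
        ((C : ℂ →+* MvPolynomial (Fin n) ℂ).comp (algebraMap OO ℂ)) (X j)) =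
        Polynomial.eval₂RingHom ((algebraMap ℂ K).comp (algebraMap OO ℂ)) (x j) := by
      apply Polynomial.ringHom_ext
      · intro a
        simp
      · simp
    have h4 : (aeval x : MvPolynomial (Fin n) ℂ →ₐ[ℂ] K).toRingHom (X i) = x i := by simp
    rw [h3, h4] at h2
    rw [← h2]
    exact h1
  have relK : ∀ (i j : Fin n) (s : Fin S.r), S.cls i = some s → S.cls j = some s →
      ∃ P : Polynomial (Polynomial OO), P.Monic ∧
        P.eval₂ (Polynomial.eval₂RingHom ((algebraMap ℂ K).comp (algebraMap OO ℂ)) (x j)) (x i) = 0 := by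
    intro i j s hi hj
    obtain ⟨m, hm, h⟩ := special_rel S hi hj
    exact ⟨primPoly m, primPoly_monic m, evalK _ i j fun y hy => h y (hAS hy)⟩
  have constK : ∀ i : Fin n, S.cls i = none → x i = algebraMap ℂ K (S.c i) := by
    intro i hi
    have h1 := hx0 (X i - C (S.c i)) (hmem _ fun y hy => by
      rw [map_sub, eval_X, eval_C, (hAS hy).1 i hi, sub_self])
    rw [map_sub, aeval_X, aeval_C, sub_eq_zero] at h1
    exact h1
  have hxZ : ∀ f : MvPolynomial (Fin n) ℂ, (∀ z ∈ Z, eval z f = 0) →
      aeval (fun i => x i - (a i : K)) f = 0 := by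
    intro f hf
    have h1 := hx0 (aeval (fun i => X i - C (a i : ℂ)) f) (hmem _ fun y hy => by
      have h2 := hf _ (hAZ hy)
      rw [← aeval_eq_eval, ← AlgHom.comp_apply]
      rw [← aeval_eq_eval] at h2
      rw [← h2]
      congr 1
      apply MvPolynomial.algHom_ext
      intro i
      simp)
    rw [← AlgHom.comp_apply] at h1
    rw [← h1]
    congr 1
    apply MvPolynomial.algHom_ext
    intro i
    simp
  have : Fintype t := Fintype.ofFinite t
  obtain ⟨p, O, i, j, s, hp, hpO, hij, hi, hj, hpi, hpj, hxi, hxj⟩ :=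
    exists_pairK hM hgp ha S x hxZ relK constK idx hK (by
      rw [hdim, Nat.card_eq_fintype_card] at hd
      omega)
  obtain ⟨m, hm, h⟩ := special_rel S hj hi
  have h1 : ∀ y ∈ zeroLocus ℂ I, (primPoly m).eval₂ (evO (y i)) (y j) = 0 := fun y hy => h y (hAS hy)
  have hrig := primPoly_rigS m K O p hp.ne_zero hpO (x i) (x j) (evalK _ j i h1)
  obtain ⟨N, hN⟩ := Int.eq_ofNat_of_zero_le hm.out.le
  subst hN
  have hN0 : 0 < N := by exact_mod_cast hm.out
  refine ⟨i, j, N, hij, hN0, mem_levels hp hpO hM hpi hpj hxi hxj hrig, fun y hy => ?_⟩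
  exact (cyclicIsog_iff hN0).2 (h1 y hy)

end Pool.Agent.Helper11.ZV
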