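import Pool.Agent.Helper11.ZV.Place
import Pool.Agent.Helper20.ZT.PrimLevelS

/-! # The level of a modular relation, with bounded denominators -/

namespace Pool.Agent.Helper11.ZV
open Pool.Agent.Helper11.ZP Pool.Agent.Helper11.ZU Pool.Agent.Helper20.ZT Pool.Agent.Helper20.ZT.Prim

lemma modp_eq_pow (p : ℕ) : modp p = p ^ (if p = 2 then 2 else 1) := by
  unfold modp
  split_ifs with h
  · rw [h]; norm_num
  · rw [pow_one]

section
variable {K : Type*} [Field K] [CharZero K] {O : ValuationSubring K} {p : ℕ}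

omit [CharZero K] in
lemma Cong.pow_two_sub {u : K} (hu : Cong O 4 u) : Cong O 4 (u ^ 2) := hu.pow 2

/-- a root of unity congruent to `1` modulo `4`, for `p = 2` -/
lemma root_eq_one_two (h2O : (2 : K) ∈ O.nonunits) {ζ : K} (hζ : Cong O 4 ζ) {N : ℕ} (hN : 0 < N)
    (h : ζ ^ N = 1) : ζ = 1 := by
  induction N using Nat.strong_induction_on generalizing ζ with
  | _ N ih =>
    have v2 := (val_non O).1 h2O
    have v2m : ∀ w ∈ O, O.valuation ((2 : K) * w) < 1 := fun w hw => by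
      rw [map_mul]
      exact (mul_le_of_le_one_right zero_le ((val_mem O).1 hw)).trans_lt v2
    rcases Nat.even_or_odd N with ⟨k, hk⟩ | hodd
    · have hk0 : 0 < k := by omega
      have h1 : ζ ^ 2 = 1 := by
        refine ih k (by omega) (hζ.pow 2) hk0 ?_
        rw [← pow_mul, two_mul, ← hk, h]
      have h2 : (ζ - 1) * (ζ + 1) = 0 := by linear_combination h1
      rcases mul_eq_zero.1 h2 with h3 | h3
      · linear_combination h3
      · exfalso
        obtain ⟨w, hw, rfl⟩ := hζ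
        have h4 : (2 : K) * (1 + 2 * w) = 0 := by
          push_cast at h3
          linear_combination h3
        rcases mul_eq_zero.1 h4 with h5 | h5
        · exact two_ne_zero h5
        · have h6 := v2m w hw
          rw [show (2 : K) * w = -1 by linear_combination h5, Valuation.map_neg, map_one] at h6
          exact lt_irrefl _ h6
    · obtain ⟨w, hw, rfl⟩ := hζ
      obtain ⟨k, hk⟩ := Polynomial.powAddExpansion (1 : O) (4 * ⟨w, hw⟩) N
      have hk2 := congrArg (Subtype.val : O → K) hk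
      push_cast at hk2
      have h4c : ((4 : ℕ) : K) = 4 := by norm_num
      rw [h4c] at h ⊢
      simp only [one_pow, mul_one] at hk2
      have h1 : (4 * w) * (N + (k : K) * (4 * w)) = 0 := by
        have h5 : (1 + 4 * w) ^ N = 1 + N * (4 * w) + k * (4 * w) ^ 2 := by
          have h4O : (((4 : O)) : K) = 4 := map_ofNat O.subtype 4
          simpa [h4O] using hk2
        rw [h] at h5
        linear_combination -h5
      rcases mul_eq_zero.1 h1 with h2 | h2
      · rw [h2, add_zero]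
      · exfalso
        obtain ⟨l, hl⟩ := hodd
        have h3 : (1 : K) = 2 * (-(l + k * (2 * w))) := by
          rw [hl] at h2
          push_cast at h2
          linear_combination h2
        have h4 := v2m (-(l + (k : K) * (2 * w))) (O.neg_mem _ (O.add_mem _ _ (natCast_mem O l)
          (O.mul_mem _ _ k.2 (O.mul_mem _ _ (by exact_mod_cast natCast_mem O 2) hw))))
        rw [← h3, map_one] at h4
        exact lt_irrefl _ h4

/-- a root of unity congruent to `1` modulo `p`, modulo `4` for `p = 2` -/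
lemma root_eq_one_modp (hp : p.Prime) (hpO : (p : K) ∈ O.nonunits) {ζ : K} (hζ : Cong O (modp p) ζ)
    {N : ℕ} (hN : 0 < N) (h : ζ ^ N = 1) : ζ = 1 := by
  by_cases h2 : p = 2
  · subst h2
    refine root_eq_one_two (by exact_mod_cast hpO) ?_ hN h
    simpa [modp] using hζ
  · have hp2 : 2 < p := lt_of_le_of_ne hp.two_le (Ne.symm h2)
    refine Cong.root_eq_one hp hp2 (by exact_mod_cast hp.ne_zero) hpO ?_ hN h
    simpa [modp, h2] using hζ

/-- a translate of `u / (p ^ e v)` by a number with denominator `p ^ k`, with precision `p ^ (e - k)` -/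
lemma translate_congM (hp : p.Prime) (hpO : (p : K) ∈ O.nonunits) {u v : ℤ} (hu : ¬ (p : ℤ) ∣ u)
    (hv : ¬ (p : ℤ) ∣ v) {e k : ℕ} (hk : k ≤ e) {x : K}
    (hx : (p : K) ^ k * (x - (u : K) / ((p : K) ^ e * v)) ∈ O) :
    ∃ c, Cong O (p ^ (e - k)) c ∧ x = (u : K) / ((p : K) ^ e * v) * c := by
  have hp0 : (p : K) ≠ 0 := by exact_mod_cast hp.ne_zero
  have vu := int_unit O hp hpO hu
  have vv := int_unit O hp hpO hv
  have hu0 : (u : K) ≠ 0 := by intro h; rw [h, map_zero] at vu; exact zero_ne_one vu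
  have hv0 : (v : K) ≠ 0 := by intro h; rw [h, map_zero] at vv; exact zero_ne_one vv
  set z := x - (u : K) / ((p : K) ^ e * v) with hz
  have hpe : (p : K) ^ e = (p : K) ^ (e - k) * (p : K) ^ k := by rw [← pow_add]; congr 1; omega
  have hc : Cong O (p ^ (e - k)) (1 + (p : K) ^ e * v * z / u) := by
    refine ⟨v * ((p : K) ^ k * z) / u, ?_, by rw [hpe]; push_cast; ring⟩
    rw [div_eq_mul_inv]
    refine O.mul_mem _ _ (O.mul_mem _ _ (intCast_mem O v) hx) ?_
    rw [val_mem, map_inv₀, vu, inv_one]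
  refine ⟨_, hc, ?_⟩
  have : x = z + (u : K) / ((p : K) ^ e * v) := by rw [hz]; ring
  rw [this]
  field_simp
  ring

lemma val_of_cong (hp : p.Prime) (hpO : (p : K) ∈ O.nonunits) {u v : ℤ} (hu : ¬ (p : ℤ) ∣ u)
    (hv : ¬ (p : ℤ) ∣ v) {e r : ℕ} (hr : 0 < r) {x c : K} (hc : Cong O (p ^ r) c)
    (hx : x = (u : K) / ((p : K) ^ e * v) * c) : O.valuation ((p : K) ^ e * x) = 1 := by
  have hp0 : (p : K) ≠ 0 := by exact_mod_cast hp.ne_zero
  have vu := int_unit O hp hpO hu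
  have vv := int_unit O hp hpO hv
  have hv0 : (v : K) ≠ 0 := by intro h; rw [h, map_zero] at vv; exact zero_ne_one vv
  have hP : ((p ^ r : ℕ) : K) ∈ O.nonunits := by
    rw [val_non]
    push_cast
    rw [map_pow]
    exact pow_lt_one₀ zero_le ((val_non O).1 hpO) hr.ne'
  have h1 : (p : K) ^ e * x = (u : K) / v * c := by
    rw [hx]
    field_simp
  rw [h1, map_mul, map_div₀, vu, vv, hc.val hP, div_one, one_mul]

end

/-- **the exact level** of a sharply rigid relation between translates of `u₁ / (p ^ e v₁)` and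
`u₂ / (p ^ f v₂)` by numbers with denominator `p ^ k` -/
theorem levelM {K : Type*} [Field K] [CharZero K] {p : ℕ} (hp : p.Prime)
    {O : ValuationSubring K} (hpO : (p : K) ∈ O.nonunits) {u₁ v₁ u₂ v₂ : ℤ}
    (hu₁ : ¬ (p : ℤ) ∣ u₁) (hv₁ : ¬ (p : ℤ) ∣ v₁) (hu₂ : ¬ (p : ℤ) ∣ u₂) (hv₂ : ¬ (p : ℤ) ∣ v₂)
    {e f k r : ℕ} (her : k + r ≤ e) (hfr : k + r ≤ f) (hr : (if p = 2 then 2 else 1) ≤ r) {x y : K}
    (hx : (p : K) ^ k * (x - (u₁ : K) / ((p : K) ^ e * v₁)) ∈ O)
    (hy : (p : K) ^ k * (y - (u₂ : K) / ((p : K) ^ f * v₂)) ∈ O) {m : ℤ} (hrig : RigS p O m x y) :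
    ∃ g : ℕ, 0 < g ∧ m * ((Nat.gcd e f : ℕ) : ℤ) ^ 2 = e * f * g ^ 2 ∧
      (p : ℤ) ^ r ∣ (u₁ ^ (f / Nat.gcd e f) * v₂ ^ (e / Nat.gcd e f)) ^ g -
        (v₁ ^ (f / Nat.gcd e f) * u₂ ^ (e / Nat.gcd e f)) ^ g ∧
      ∀ k : ℕ, (modp p : ℤ) ∣ (u₁ ^ (f / Nat.gcd e f) * v₂ ^ (e / Nat.gcd e f)) ^ k -
        (v₁ ^ (f / Nat.gcd e f) * u₂ ^ (e / Nat.gcd e f)) ^ k → g ∣ k := by
  have hr0 : 0 < r := by
    refine lt_of_lt_of_le ?_ hr
    split_ifs <;> norm_num
  have he0 : 0 < e := by omega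
  have hf0 : 0 < f := by omega
  obtain ⟨c, hc1, hxc⟩ := translate_congM hp hpO hu₁ hv₁ (by omega) hx
  obtain ⟨c', hc1', hyc⟩ := translate_congM hp hpO hu₂ hv₂ (by omega) hy
  have vx := val_of_cong hp hpO hu₁ hv₁ (by omega) hc1 hxc
  have vy := val_of_cong hp hpO hu₂ hv₂ (by omega) hc1' hyc
  have hc : Cong O (p ^ r) c := Cong.mono (by omega) hc1
  have hc' : Cong O (p ^ r) c' := Cong.mono (by omega) hc1'
  obtain ⟨g, ζ, w, hg, hm, hζ, hw, hrel⟩ := hrig e f he0 hf0 vx vy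
  refine ⟨g, hg, hm, ?_⟩
  set h := Nat.gcd e f with hh
  have hh0 : 0 < h := Nat.gcd_pos_of_pos_left _ he0
  obtain ⟨e', he'⟩ : h ∣ e := Nat.gcd_dvd_left _ _
  obtain ⟨f', hf'⟩ : h ∣ f := Nat.gcd_dvd_right _ _
  have e1 : e / h = e' := by rw [he']; exact Nat.mul_div_cancel_left _ hh0
  have f1 : f / h = f' := by rw [hf']; exact Nat.mul_div_cancel_left _ hh0
  rw [e1, f1] at hrel ⊢
  have hp0 : (p : K) ≠ 0 := by exact_mod_cast hp.ne_zero
  have hPc : ((p ^ r : ℕ) : K) = (p : K) ^ r := by push_cast; rfl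
  have hP : ((p ^ r : ℕ) : K) ∈ O.nonunits := by
    rw [val_non, hPc, map_pow]
    exact pow_lt_one₀ zero_le ((val_non O).1 hpO) hr0.ne'
  have nz : ∀ z : ℤ, ¬ (p : ℤ) ∣ z → (z : K) ≠ 0 := by
    intro z hz
    have := int_unit O hp hpO hz
    intro h0
    rw [h0, map_zero] at this
    exact zero_ne_one this
  have hu₁0 := nz _ hu₁
  have hv₁0 := nz _ hv₁
  have hu₂0 := nz _ hu₂
  have hv₂0 := nz _ hv₂
  have hcw : Cong O (p ^ r) (1 + (p : K) ^ min e f * w) := by
    refine ⟨(p : K) ^ (min e f - r) * w, O.mul_mem _ _ (mem_pow O (natCast_mem O p) _) hw, ?_⟩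
    rw [hPc, ← mul_assoc, ← pow_add]
    congr 3
    omega
  have cne : ∀ {c : K}, Cong O (p ^ r) c → c ≠ 0 := by
    intro c hc h0
    have := hc.val hP
    rw [h0, map_zero] at this
    exact zero_ne_one this
  have hcw0 := cne hcw
  have hc0 := cne hc
  have hc'0 := cne hc'
  set κ := c ^ f' / (c' ^ e' * (1 + (p : K) ^ min e f * w)) with hκ
  have hκC : Cong O (p ^ r) κ := (hc.pow _).div hP ((hc'.pow _).mul hcw)
  set A : ℤ := u₁ ^ f' * v₂ ^ e' with hA
  set B : ℤ := v₁ ^ f' * u₂ ^ e' with hB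
  have key : ζ = ((A : K) / (B : K)) * κ := by
    rw [hxc, hyc] at hrel
    have hef : ((p : K) ^ e) ^ f' = ((p : K) ^ f) ^ e' := by
      rw [← pow_mul, ← pow_mul]
      congr 1
      rw [he', hf']; ring
    have hpe : ((p : K) ^ f) ^ e' ≠ 0 := pow_ne_zero _ (pow_ne_zero _ hp0)
    rw [hA, hB, hκ]
    push_cast
    rw [mul_pow, div_pow, mul_pow, mul_pow, div_pow, mul_pow, hef] at hrel
    have hne : (u₂ : K) ^ e' / (((p : K) ^ f) ^ e' * (v₂ : K) ^ e') * c' ^ e' *
        (1 + (p : K) ^ min e f * w) ≠ 0 := by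
      refine mul_ne_zero (mul_ne_zero (div_ne_zero (pow_ne_zero _ hu₂0) (mul_ne_zero hpe
        (pow_ne_zero _ hv₂0))) (pow_ne_zero _ hc'0)) hcw0
    have h3 : ζ = ((u₁ : K) ^ f' / (((p : K) ^ f) ^ e' * (v₁ : K) ^ f') * c ^ f') /
        ((u₂ : K) ^ e' / (((p : K) ^ f) ^ e' * (v₂ : K) ^ e') * c' ^ e' *
          (1 + (p : K) ^ min e f * w)) := by
      rw [eq_div_iff hne, hrel]
      ring
    rw [h3]
    field_simp
  have hpZ := Nat.prime_iff_prime_int.1 hp
  have hAp : ¬ (p : ℤ) ∣ A := by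
    intro h0
    rcases hpZ.dvd_or_dvd h0 with h0 | h0
    · exact hu₁ (hpZ.dvd_of_dvd_pow h0)
    · exact hv₂ (hpZ.dvd_of_dvd_pow h0)
  have hBp : ¬ (p : ℤ) ∣ B := by
    intro h0
    rcases hpZ.dvd_or_dvd h0 with h0 | h0
    · exact hv₁ (hpZ.dvd_of_dvd_pow h0)
    · exact hu₂ (hpZ.dvd_of_dvd_pow h0)
  have hA0 := nz _ hAp
  have hB0 := nz _ hBp
  have powrel : ∀ k : ℕ, ζ ^ k * (B : K) ^ k = (A : K) ^ k * κ ^ k := by
    intro k
    rw [key, mul_pow, div_pow]
    field_simp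
  refine ⟨?_, fun k hk => ?_⟩
  · obtain ⟨w', hw', hw2⟩ := hκC.pow g
    have h1 := powrel g
    rw [hζ.pow_eq_one, one_mul, hw2, hPc] at h1
    refine dvd_of_mem O hp hpO (s := -((A : K) ^ g * w')) ?_ ?_
    · exact O.neg_mem _ (O.mul_mem _ _ (mem_pow O (intCast_mem O A) _) hw')
    · push_cast
      rw [h1]
      ring
  · obtain ⟨D, hD⟩ := hk
    have hBk : O.valuation ((B : K) ^ k) = 1 := by rw [map_pow, int_unit O hp hpO hBp, one_pow]
    have h1 : Cong O (modp p) ((A : K) ^ k / (B : K) ^ k) := by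
      refine ⟨(D : K) / (B : K) ^ k, ?_, ?_⟩
      · rw [val_mem, map_div₀, hBk, div_one]
        exact (val_mem O).1 (intCast_mem O D)
      · have h2 := congrArg (Int.cast : ℤ → K) hD
        push_cast at h2
        have h3 : (B : K) ^ k ≠ 0 := pow_ne_zero _ hB0
        field_simp
        linear_combination h2
    have h2 : Cong O (modp p) (κ ^ k) := by
      rw [modp_eq_pow]
      exact Cong.mono hr (hκC.pow k)
    have h3 : ζ ^ k = (A : K) ^ k / (B : K) ^ k * κ ^ k := by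
      rw [div_mul_eq_mul_div, eq_div_iff (pow_ne_zero _ hB0)]
      exact powrel k
    have h4 : Cong O (modp p) (ζ ^ k) := by
      rw [h3]
      exact h1.mul h2
    have h5 := root_eq_one_modp hp hpO h4 hg (by rw [← pow_mul, mul_comm, pow_mul, hζ.pow_eq_one, one_pow])
    exact hζ.dvd_of_pow_eq_one _ h5

end Pool.Agent.Helper11.ZV
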