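import Pool.Agent.Helper11.ZV.Level

/-! # The finite list of levels -/

namespace Pool.Agent.Helper11.ZV
open Finset Pool.Agent.Helper11.ZP Pool.Agent.Helper11.ZU Pool.Agent.Helper20.ZT Pool.Agent.Helper20.ZT.Prim

lemma card_levels_le (M : ℕ) (α β : ℚ) :
    (levels M α β).card ≤ (α.den.primeFactors ∩ β.den.primeFactors).card := by
  unfold levels
  exact card_image_le.trans (card_filter_le _ _)

lemma ratMod_eq {q : ℕ} {ρ : ℚ} {A B : ℤ} (hB : IsCoprime B q) (h : ρ * B = A) :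
    ratMod q ρ * (B : ZMod q) = A := by
  have hB0 : B ≠ 0 ∨ q = 1 := by
    by_cases h0 : B = 0
    · right
      rw [h0, isCoprime_zero_left] at hB
      exact Int.ofNat_isUnit.1 hB |> Nat.isUnit_iff.1
    · exact Or.inl h0
  rcases hB0 with hB0 | hq
  · have h1 : ρ.num * B = A * ρ.den := by
      have h2 : (ρ.num : ℚ) = ρ * ρ.den := (Rat.mul_den_eq_num ρ).symm
      have h3 : ((ρ.num * B : ℤ) : ℚ) = ((A * ρ.den : ℤ) : ℚ) := by
        push_cast
        rw [h2, ← h]
        ring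
      exact_mod_cast h3
    have hden : IsCoprime (ρ.den : ℤ) q := by
      have h2 : (ρ.den : ℤ) ∣ B := by
        have h3 : IsCoprime (ρ.den : ℤ) ρ.num := by
          rw [Int.isCoprime_iff_gcd_eq_one, Int.gcd_comm]
          exact ρ.reduced
        exact h3.dvd_of_dvd_mul_left (Dvd.intro_left _ h1.symm)
      exact hB.of_isCoprime_of_dvd_left h2
    have hdu : (ρ.den : ZMod q) * (ρ.den : ZMod q)⁻¹ = 1 := by
      apply ZMod.coe_mul_inv_eq_one
      exact Nat.isCoprime_iff_coprime.1 hden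
    have h4 := congrArg (Int.cast : ℤ → ZMod q) h1
    push_cast at h4
    unfold ratMod
    calc (ρ.num : ZMod q) * (ρ.den : ZMod q)⁻¹ * B = (ρ.num * B) * (ρ.den : ZMod q)⁻¹ := by ring
      _ = A * ((ρ.den : ZMod q) * (ρ.den : ZMod q)⁻¹) := by rw [h4]; ring
      _ = A := by rw [hdu, mul_one]
  · subst hq
    exact Subsingleton.elim _ _

lemma ratMod_pow_eq_one {q : ℕ} {ρ : ℚ} {A B : ℤ} (hB : IsCoprime B q) (h : ρ * B = A) (k : ℕ) :
    ratMod q ρ ^ k = 1 ↔ (q : ℤ) ∣ A ^ k - B ^ k := by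
  have h1 := ratMod_eq hB h
  have hu : IsUnit (B : ZMod q) := by
    obtain ⟨u, v, huv⟩ := hB
    refine IsUnit.of_mul_eq_one (u : ZMod q) ?_
    have h2 := congrArg (Int.cast : ℤ → ZMod q) huv
    push_cast at h2
    rw [ZMod.natCast_self, mul_zero, add_zero] at h2
    rw [mul_comm]
    exact h2
  rw [← ZMod.intCast_zmod_eq_zero_iff_dvd]
  push_cast
  rw [← h1, mul_pow, sub_eq_zero]
  constructor
  · intro h2
    rw [h2, one_mul]
  · intro h2
    exact (hu.pow k).mul_right_cancel (by rw [h2, one_mul])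

/-- **the level lies in the finite list** -/
theorem mem_levels {K : Type*} [Field K] [CharZero K] {p : ℕ} (hp : p.Prime)
    {O : ValuationSubring K} (hpO : (p : K) ∈ O.nonunits) {M : ℕ} (hM : 0 < M) {α β : ℚ}
    (hα : padicValNat p (2 * M) < padicValNat p α.den) (hβ : padicValNat p (2 * M) < padicValNat p β.den)
    {x y : K} (hx : (M : K) * (x - (α : K)) ∈ O) (hy : (M : K) * (y - (β : K)) ∈ O) {N : ℕ}
    (hrig : RigS p O N x y) : N ∈ levels (2 * M) α β := by
  classical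
  have := Fact.mk hp
  set e := padicValNat p α.den with he
  set f := padicValNat p β.den with hf
  set k := padicValNat p M with hk
  have h2M : padicValNat p (2 * M) = padicValNat p 2 + k := padicValNat.mul two_ne_zero hM.ne'
  have hdiv : ∀ {γ : ℚ}, 0 < padicValNat p γ.den → p ∣ γ.den := fun h => dvd_of_one_le_padicValNat h
  obtain ⟨u₁, v₁, hu₁, hv₁, h₁⟩ := rat_shape hp α (hdiv (by omega))
  obtain ⟨u₂, v₂, hu₂, hv₂, h₂⟩ := rat_shape hp β (hdiv (by omega))
  rw [← he] at h₁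
  rw [← hf] at h₂
  have h₁' : (α : K) = (u₁ : K) / ((p : K) ^ e * v₁) := by rw [h₁]; push_cast; rfl
  have h₂' : (β : K) = (u₂ : K) / ((p : K) ^ f * v₂) := by rw [h₂]; push_cast; rfl
  -- the factor `M`
  obtain ⟨M₁, hM₁, hM₁2⟩ : ∃ M₁ : ℕ, M = p ^ k * M₁ ∧ ¬ p ∣ M₁ := by
    obtain ⟨M₁, h⟩ := pow_padicValNat_dvd (p := p) (n := M)
    refine ⟨M₁, h, fun hcon => ?_⟩
    apply pow_succ_padicValNat_not_dvd (p := p) (n := M) hM.ne'
    rw [pow_succ]
    conv_rhs => rw [h]
    exact mul_dvd_mul_left _ hcon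
  have hM₁K : (M : K) = (p : K) ^ k * M₁ := by rw [hM₁]; push_cast; rfl
  have vM₁ : O.valuation (M₁ : K) = 1 := by
    have := int_unit O hp hpO (u := (M₁ : ℤ)) (fun h => hM₁2 (by exact_mod_cast h))
    simpa using this
  have drop : ∀ z : K, (M : K) * z ∈ O → (p : K) ^ k * z ∈ O := by
    intro z hz
    rw [hM₁K, mul_right_comm, val_mem, map_mul, vM₁, mul_one, ← val_mem] at hz
    exact hz
  have hx' := drop _ hx
  have hy' := drop _ hy
  rw [h₁'] at hx'
  rw [h₂'] at hy'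
  have h22 : (if p = 2 then 2 else 1) = padicValNat p 2 + 1 := by
    split_ifs with h
    · rw [h]; simp
    · rw [padicValNat_primes h]
  obtain ⟨g, hg0, hgm, hgA, hgk⟩ := levelM hp hpO hu₁ hv₁ hu₂ hv₂ (k := k) (r := min e f - k)
    (by omega) (by omega) (by rw [h22]; omega) hx' hy' hrig
  set h := Nat.gcd e f with hh
  set A : ℤ := u₁ ^ (f / h) * v₂ ^ (e / h) with hA
  set B : ℤ := v₁ ^ (f / h) * u₂ ^ (e / h) with hB
  have hpZ := Nat.prime_iff_prime_int.1 hp
  have hBp : ¬ (p : ℤ) ∣ B := by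
    intro h0
    rcases hpZ.dvd_or_dvd h0 with h0 | h0
    · exact hv₁ (hpZ.dvd_of_dvd_pow h0)
    · exact hu₂ (hpZ.dvd_of_dvd_pow h0)
  have hBcop : ∀ s : ℕ, IsCoprime B ((p ^ s : ℕ) : ℤ) := by
    intro s
    push_cast
    apply IsCoprime.pow_right
    exact ((Prime.coprime_iff_not_dvd hpZ).2 hBp).symm
  have hh0 : 0 < h := Nat.gcd_pos_of_pos_left _ (by omega)
  have hρ : ratio p α β * B = A := by
    have hvq : ∀ {z : ℤ}, ¬ (p : ℤ) ∣ z → (z : ℚ) ≠ 0 := fun {z} hz h0 => hz (by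
      have : z = 0 := by exact_mod_cast h0
      rw [this]; exact dvd_zero _)
    have hu₂' := hvq hu₂
    have hv₁' := hvq hv₁
    have hv₂' := hvq hv₂
    have hp0 : (p : ℚ) ≠ 0 := by exact_mod_cast hp.ne_zero
    have hexp : ((p : ℚ) ^ e) ^ (f / h) = ((p : ℚ) ^ f) ^ (e / h) := by
      rw [← pow_mul, ← pow_mul]
      congr 1
      obtain ⟨e', he'⟩ : h ∣ e := Nat.gcd_dvd_left _ _
      obtain ⟨f', hf'⟩ : h ∣ f := Nat.gcd_dvd_right _ _
      have e1 : e / h = e' := by rw [he']; exact Nat.mul_div_cancel_left _ hh0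
      have f1 : f / h = f' := by rw [hf']; exact Nat.mul_div_cancel_left _ hh0
      rw [e1, f1, he', hf']; ring
    unfold ratio
    rw [← he, ← hf, ← hh, h₁, h₂, hA, hB, div_pow, div_pow, mul_pow, mul_pow, hexp]
    push_cast
    field_simp
  have hmodp : ∃ s, modp p = p ^ s ∧ s ≤ min e f - k := by
    refine ⟨_, modp_eq_pow p, ?_⟩
    rw [h22]
    omega
  obtain ⟨s, hs, hsle⟩ := hmodp
  have hord : order p α β = g := by
    unfold order
    apply Nat.dvd_antisymm
    · apply orderOf_dvd_of_pow_eq_one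
      rw [hs, ratMod_pow_eq_one (hBcop s) hρ]
      refine dvd_trans ?_ hgA
      push_cast
      exact pow_dvd_pow _ hsle
    · apply hgk
      rw [hs, ← ratMod_pow_eq_one (hBcop s) hρ, ← hs]
      exact pow_orderOf_eq_one _
  have hpa : p ∈ α.den.primeFactors := Nat.mem_primeFactors.2 ⟨hp, hdiv (by omega), α.den_nz⟩
  have hpb : p ∈ β.den.primeFactors := Nat.mem_primeFactors.2 ⟨hp, hdiv (by omega), β.den_nz⟩
  unfold levels
  rw [mem_image]
  refine ⟨p, ?_, ?_⟩
  · rw [mem_filter, mem_inter]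
    refine ⟨⟨hpa, hpb⟩, lt_min hα hβ, ?_⟩
    rw [← he, ← hf, hord, ratMod_pow_eq_one (hBcop _) hρ]
    refine dvd_trans ?_ hgA
    push_cast
    apply pow_dvd_pow
    omega
  · unfold level
    rw [hord, ← he, ← hf, ← hh]
    have h5 : N * h ^ 2 = e * f * g ^ 2 := by exact_mod_cast hgm
    rw [← h5]
    exact Nat.mul_div_cancel _ (pow_pos hh0 2)

end Pool.Agent.Helper11.ZV
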