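import Pool.Agent.Helper11.ZV.Gen

/-! # Zilber-Pink for translates, modulus form -/

open UpperHalfPlane Finset MvPolynomial

namespace Pool.Agent.Helper11.ZV
open Pool.Agent.Helper11.ZP Pool.Agent.Helper11.ZU Pool.Agent.Helper20.ZT Pool.Agent.Helper20.ZT.Prim
  Pool.Agent.Helper11.ZI

variable {n : ℕ}

open Classical in
/-- the product of the modular polynomials of the levels -/
lemma exists_prodM (M : ℕ) (a : Fin n → ℚ) {V : Set (Fin n → ℂ)} (hV : IsSubvariety V)
    (hVS : ∀ S : SpecialData n, dim S.carrier < n → ¬ V ⊆ S.carrier) :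
    ∃ f : MvPolynomial (Fin n) ℂ, f ∉ vanishingIdeal ℂ V ∧ ∀ x : Fin n → ℂ,
      (∃ (i j : Fin n) (N : ℕ), i ≠ j ∧ 0 < N ∧ N ∈ levels M (a i) (a j) ∧ CyclicIsog N (x i) (x j)) →
        eval x f = 0 := by
  have hI := van_prime hV
  let F : Fin n × Fin n → ℕ → MvPolynomial (Fin n) ℂ := fun ij N =>
    if h : 0 < N ∧ ij.1 ≠ ij.2 then hypPoly N h.1 ij.1 ij.2 else 1
  refine ⟨∏ ij : Fin n × Fin n, ∏ N ∈ levels M (a ij.1) (a ij.2), F ij N, ?_, ?_⟩
  · intro h
    rw [hI.prod_mem_iff] at h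
    obtain ⟨ij, -, h1⟩ := h
    rw [hI.prod_mem_iff] at h1
    obtain ⟨N, hN, h2⟩ := h1
    simp only [F] at h2
    split_ifs at h2 with h3
    · exact hVS _ (dim_hypData h3.1 h3.2) (subset_hypData h3.1 h3.2 h2)
    · exact hI.ne_top ((Ideal.eq_top_iff_one _).2 h2)
  · rintro x ⟨i, j, N, hij, hN0, hN, h⟩
    rw [map_prod]
    refine Finset.prod_eq_zero (mem_univ (i, j)) ?_
    rw [map_prod]
    refine Finset.prod_eq_zero (i := N) hN ?_
    simp only [F]
    rw [dif_pos ⟨hN0, hij⟩, eval_hypPoly]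
    exact h

theorem unlikelyM {d M : ℕ} (hM : 0 < M) {Z : Set (Fin n → ℂ)}
    (hgp : ∀ p : ℕ, p.Prime → PlaceM M d Z p) {a : Fin n → ℚ} (ha : CommonFactor (2 * M) d a) :
    UnlikelyInLevels (2 * M) d a (translate Z a) := by
  intro S A hA hAX hd
  obtain ⟨i, j, N, hij, -, hN, h⟩ := atypical_pair hM hgp (ha.strong (by omega)) S hA
    (fun x hx => (hAX hx).1) (fun x hx => (hAX hx).2) (by omega)
  exact ⟨i, j, hij, N, hN, h⟩

theorem notDenseM {d M : ℕ} (hM : 0 < M) {Z : Set (Fin n → ℂ)}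
    (hgp : ∀ p : ℕ, p.Prime → PlaceM M d Z p) {a : Fin n → ℚ} (ha : CommonFactor (2 * M) d a)
    {V : Set (Fin n → ℂ)} (hV : IsSubvariety V) (hVZ : V ⊆ translate Z a) (hd : d ≤ dim V)
    (hVS : ∀ S : SpecialData n, dim S.carrier < n → ¬ V ⊆ S.carrier) : AtypicalNotDense V := by
  obtain ⟨f, hf, hf2⟩ := exists_prodM (2 * M) a hV hVS
  refine ⟨f, ?_, fun A hA x hx => hf2 x ?_⟩
  · by_contra hcon
    push Not at hcon
    exact hf (mem_van.2 hcon)
  · obtain ⟨S, ⟨hA, hAVS, -⟩, hlt⟩ := hA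
    obtain ⟨i, j, N, hij, hN0, hN, h⟩ := atypical_pair hM hgp (ha.strong (by omega)) S hA
      (fun x hx => hVZ (hAVS hx).1) (fun x hx => (hAVS hx).2) (by omega)
    exact ⟨i, j, N, hij, hN0, hN, h x hx⟩

/-! ### The explicit curve -/

lemma intGenPos_curve (n : ℕ) : IntGenPos (n - 1).factorial 1 (ZT.curve n) := by
  classical
  intro J hJ
  obtain ⟨i, j, hij, rfl⟩ := Finset.card_eq_two.1 hJ
  set c : ℤ := (j : ℤ) - i with hc
  have hc0 : c ≠ 0 := by
    rw [hc, sub_ne_zero]
    exact fun h => hij (Fin.ext (by exact_mod_cast h.symm))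
  have hcd : c ∣ ((n - 1).factorial : ℤ) := by
    rw [← Int.natAbs_dvd, Int.natCast_dvd_natCast]
    apply Nat.dvd_factorial
    · exact Int.natAbs_pos.2 hc0
    · have hi := i.2
      have hj := j.2
      omega
  obtain ⟨mi, hmi⟩ : ∃ m : Fin n →₀ ℕ, m = Finsupp.single i 1 := ⟨_, rfl⟩
  obtain ⟨mj, hmj⟩ : ∃ m : Fin n →₀ ℕ, m = Finsupp.single j 1 := ⟨_, rfl⟩
  obtain ⟨m0, hm0⟩ : ∃ m : Fin n →₀ ℕ, m = mi + mj := ⟨_, rfl⟩
  set f : MvPolynomial (Fin n) ℤ := monomial m0 c + monomial mi 1 - monomial mj 1 with hf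
  have hcoe : ∀ m, f.coeff m = (if m0 = m then c else 0) + (if mi = m then 1 else 0) -
      (if mj = m then 1 else 0) := by
    intro m
    rw [hf, coeff_sub, coeff_add, coeff_monomial, coeff_monomial, coeff_monomial]
  have hi0 : mi ≠ m0 := by
    intro h
    have := DFunLike.congr_fun h j
    simp [hm0, hmj] at this
  have hj0 : mj ≠ m0 := by
    intro h
    have := DFunLike.congr_fun h i
    simp [hm0, hmi] at this
  have hc1 : f.coeff m0 = c := by
    rw [hcoe, if_pos rfl, if_neg hi0, if_neg hj0]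
    ring
  have hsup : ∀ m ∈ f.support, m ≤ m0 := by
    intro m hm
    rw [mem_support_iff, hcoe] at hm
    by_cases h0 : m0 = m
    · rw [h0]
    · by_cases h1 : mi = m
      · rw [← h1, hm0]; exact le_self_add
      · by_cases h2 : mj = m
        · rw [← h2, hm0]; exact le_add_self
        · rw [if_neg h0, if_neg h1, if_neg h2] at hm
          exact absurd (by ring) hm
  have htop : (Finsupp.equivFunOnFinite.symm fun k => f.degreeOf k) = m0 := by
    ext k
    change f.degreeOf k = m0 k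
    apply le_antisymm
    · rw [degreeOf_le_iff]
      intro m hm
      exact hsup m hm k
    · apply monomial_le_degreeOf
      rw [mem_support_iff, hc1]
      exact hc0
  refine ⟨f, ?_, ?_, ?_⟩
  · intro k hk
    rw [mem_vars_iff_mem_support] at hk
    obtain ⟨m, hm, hmk⟩ := hk
    have h1 := hsup m hm k
    rw [Finsupp.mem_support_iff] at hmk
    by_contra hcon
    simp only [Finset.mem_insert, Finset.mem_singleton, not_or] at hcon
    apply hmk
    have h2 : m0 k = 0 := by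
      simp [hm0, hmi, hmj, Ne.symm hcon.1, Ne.symm hcon.2]
    omega
  · rw [htop, hc1]
    exact hcd
  · rintro z ⟨t, ht⟩
    have hti := (ht i).1
    have htj := (ht j).1
    rw [hf, map_sub, map_add, aeval_monomial, aeval_monomial, aeval_monomial]
    rw [hm0, Finsupp.prod_add_index' (by simp) (by intros; rw [pow_add])]
    rw [hmi, hmj]
    rw [Finsupp.prod_single_index (by simp), Finsupp.prod_single_index (by simp), (ht i).2, (ht j).2]
    have : algebraMap ℤ ℂ c = (j : ℂ) - i := by rw [hc]; simp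
    rw [this, map_one]
    field_simp
    ring

end Pool.Agent.Helper11.ZV
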